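import Pool.Agent.Lib.helper20.AlgHomog

namespace Pool.Agent.Results.MP_c05c30_lc.NotHomogeneous

open FirstOrder FirstOrder.Language Pool.Agent.Lib.helper20.AlgHomog

/-- Logical homogeneity of a first-order structure: tuples satisfying the same formulas are
mapped to one another by an automorphism. -/
def Homog (L : FirstOrder.Language.{0, 0}) (M : Type) [L.Structure M] : Prop :=
  ∀ (k : ℕ) (a b : Fin k → M), (∀ φ : L.Formula (Fin k), φ.Realize a ↔ φ.Realize b) →
    ∃ σ : M ≃[L] M, ∀ i, σ (a i) = b i

/-- The single binary function symbol of the language of semigroups. -/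
inductive SgOp : ℕ → Type
  | mul : SgOp 2

/-- The language of semigroups. -/
def LS : FirstOrder.Language.{0, 0} where
  Functions := SgOp
  Relations _ := Empty

/-- Interpretation of the symbol as the product. -/
def sgEval (S : Type) [Mul S] : {n : ℕ} → SgOp n → (Fin n → S) → S
  | _, SgOp.mul, v => v 0 * v 1

/-- A semigroup as a structure for the language of semigroups. -/
@[reducible] def sgStr (S : Type) [Mul S] : LS.Structure S where
  funMap f v := sgEval S f v
  RelMap r := r.elim

lemma exists_perm {β γ : Type} (κ : β → γ) (k : ℕ) (a b : Fin k → β)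
    (h1 : ∀ i, κ (a i) = κ (b i)) (h2 : ∀ i j, a i = a j ↔ b i = b j) :
    ∃ σ : Equiv.Perm β, (∀ x, κ (σ x) = κ x) ∧ ∀ i, σ (a i) = b i := by
  classical
  induction k with
  | zero => exact ⟨1, fun _ => rfl, fun i => i.elim0⟩
  | succ k ih =>
    obtain ⟨σ, hσ, hab⟩ := ih (a ∘ Fin.castSucc) (b ∘ Fin.castSucc) (fun i => h1 _)
      (fun i j => h2 _ _)
    refine ⟨σ.trans (Equiv.swap (σ (a (Fin.last k))) (b (Fin.last k))), fun x => ?_, fun i => ?_⟩
    · rw [Equiv.trans_apply, Equiv.swap_apply_def]
      split_ifs with h h'
      · rw [← h1, ← hσ, ← h, hσ]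
      · rw [hσ, h1, ← h', hσ]
      · exact hσ x
    · refine Fin.lastCases ?_ (fun i => ?_) i
      · simp
      · have e : σ (a i.castSucc) = b i.castSucc := hab i
        rw [Equiv.trans_apply, Equiv.swap_apply_def]
        split_ifs with h h'
        · exact ((h2 _ _).1 (σ.injective h)).symm
        · rw [e] at h'
          exact absurd (congrArg σ ((h2 _ _).2 h')) h
        · exact e

inductive M5 (I J : Type) : Type
  | one | e | z | u (i : I) | v (j : J)

namespace M5

variable {I J I' J' : Type}

def mul : M5 I J → M5 I J → M5 I J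
  | one, x => x
  | x, one => x
  | e, e => e
  | e, u i => u i
  | u i, e => u i
  | _, _ => z

instance : Monoid (M5 I J) where
  mul := mul
  one := one
  mul_assoc a b c := by cases a <;> cases b <;> cases c <;> rfl
  one_mul a := by cases a <;> rfl
  mul_one a := by cases a <;> rfl

lemma mul_def (a b : M5 I J) : a * b = mul a b := rfl

def kind : M5 I J → ℕ
  | one => 0
  | e => 1
  | z => 2
  | u _ => 3
  | v _ => 4

def map (f : I → I') (g : J → J') : M5 I J →* M5 I' J' where
  toFun x := match x with
    | one => one
    | e => e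
    | z => z
    | u i => u (f i)
    | v j => v (g j)
  map_one' := rfl
  map_mul' a b := by cases a <;> cases b <;> rfl

lemma map_inj {f : I → I'} {g : J → J'} (hf : Function.Injective f) (hg : Function.Injective g) :
    Function.Injective (map f g) := by
  intro a b h
  cases a <;> cases b <;> simp only [map, MonoidHom.coe_mk, OneHom.coe_mk] at h <;>
    first
      | rfl
      | exact congrArg u (hf (u.inj h))
      | exact congrArg v (hg (v.inj h))
      | cases h

lemma perm_mul (σ : Equiv.Perm (M5 I J)) (h : ∀ x, kind (σ x) = kind x) (a b : M5 I J) :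
    σ (a * b) = σ a * σ b := by
  have h1 : σ one = one := by have := h one; revert this; cases σ one <;> simp [kind]
  have h2 : σ e = e := by have := h e; revert this; cases σ e <;> simp [kind]
  have h3 : σ z = z := by have := h z; revert this; cases σ z <;> simp [kind]
  have h4 : ∀ i, ∃ i', σ (u i) = u i' := fun i => by
    have := h (u i); revert this; cases σ (u i) <;> simp [kind]
  have h5 : ∀ i, ∃ i', σ (v i) = v i' := fun i => by
    have := h (v i); revert this; cases σ (v i) <;> simp [kind]
  choose f hf using h4
  choose g hg using h5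
  cases a <;> cases b <;> simp only [mul_def, mul, h1, h2, h3, hf, hg]

def permEquiv (σ : Equiv.Perm (M5 I J)) (h : ∀ x, kind (σ x) = kind x) : M5 I J ≃* M5 I J :=
  { σ with map_mul' := perm_mul σ h }

end M5

open M5

def mt {α : Type} (s t : LS.Term α) : LS.Term α := Term.func (SgOp.mul : LS.Functions 2) ![s, t]

lemma realize_mt {α S : Type} [Mul S] (s t : LS.Term α) (w : α → S) :
    @Term.realize LS S (sgStr S) α w (mt s t) =
      @Term.realize LS S (sgStr S) α w s * @Term.realize LS S (sgStr S) α w t := rfl

lemma homog_M5 (I J : Type) : @Homog LS (M5 I J) (sgStr _) := by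
  let _i := sgStr (M5 I J)
  intro k a b hab
  have h2 : ∀ i j, a i = a j ↔ b i = b j := fun i j => by
    simpa using hab (Term.equal (Term.var i) (Term.var j))
  have h1 : ∀ i, kind (a i) = kind (b i) := by
    intro i
    have p1 : a i * a i = a i ↔ b i * b i = b i := by
      simpa [realize_mt] using hab (Term.equal (mt (Term.var i) (Term.var i)) (Term.var i))
    have p2 : (∀ x, a i * x = x) ↔ (∀ x, b i * x = x) := by
      have := hab (BoundedFormula.all (Term.bdEqual
        (mt (Term.var (Sum.inl i)) (Term.var (Sum.inr 0))) (Term.var (Sum.inr 0))))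
      simpa [Formula.Realize, realize_mt, Fin.snoc] using this
    have p3 : (∀ x, a i * x = a i) ↔ (∀ x, b i * x = b i) := by
      have := hab (BoundedFormula.all (Term.bdEqual
        (mt (Term.var (Sum.inl i)) (Term.var (Sum.inr 0))) (Term.var (Sum.inl i))))
      simpa [Formula.Realize, realize_mt, Fin.snoc] using this
    have p4 : (∀ c x, c * a i = a i → c * x = x) ↔ (∀ c x, c * b i = b i → c * x = x) := by
      have := hab (BoundedFormula.all (BoundedFormula.all (BoundedFormula.imp (Term.bdEqual
        (mt (Term.var (Sum.inr 0)) (Term.var (Sum.inl i))) (Term.var (Sum.inl i)))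
        (Term.bdEqual
        (mt (Term.var (Sum.inr 0)) (Term.var (Sum.inr 1))) (Term.var (Sum.inr 1))))))
      simpa [Formula.Realize, realize_mt, Fin.snoc] using this
    have q1 : ∀ t : M5 I J, t * t = t ↔ kind t ≤ 2 := fun t => by
      cases t <;> simp [mul_def, mul, kind]
    have q2 : ∀ t : M5 I J, (∀ x, t * x = x) ↔ kind t = 0 := fun t => by
      refine ⟨fun h => ?_, fun h x => ?_⟩
      · have := h one
        revert this
        cases t <;> simp [mul_def, mul, kind]
      · revert h
        cases t <;> simp [mul_def, mul, kind]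
    have q3 : ∀ t : M5 I J, (∀ x, t * x = t) ↔ kind t = 2 := fun t => by
      refine ⟨fun h => ?_, fun h x => ?_⟩
      · have := h z
        revert this
        cases t <;> simp [mul_def, mul, kind]
      · revert h
        cases t <;> cases x <;> simp [mul_def, mul, kind]
    have q4 : ∀ t : M5 I J, (∀ c x, c * t = t → c * x = x) ↔ (kind t = 0 ∨ kind t = 4) :=
      fun t => by
      refine ⟨fun h => ?_, fun h c x => ?_⟩
      · have := h e one
        revert this
        cases t <;> simp [mul_def, mul, kind]
      · revert h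
        cases t <;> cases c <;> simp [mul_def, mul, kind]
    have q5 : ∀ t : M5 I J, kind t ≤ 4 := fun t => by cases t <;> simp [kind]
    rw [q1, q1] at p1
    rw [q2, q2] at p2
    rw [q3, q3] at p3
    rw [q4, q4] at p4
    have := q5 (a i)
    have := q5 (b i)
    omega
  obtain ⟨σ, hσ, hab⟩ := exists_perm kind k a b h1 h2
  refine ⟨⟨σ, fun {n} f x => ?_, fun {n} r => r.elim⟩, hab⟩
  cases f
  exact perm_mul σ hσ _ _

lemma homog_F2 : @Homog Language.ring (ZMod 2)
    (FirstOrder.Ring.compatibleRingOfRing (ZMod 2)).toStructure := by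
  let _i := FirstOrder.Ring.compatibleRingOfRing (ZMod 2)
  intro k a b hab
  refine ⟨Language.Equiv.refl _ _, fun i => ?_⟩
  have : a i = 0 ↔ b i = 0 := by simpa using hab (Term.equal (Term.var i) 0)
  change a i = b i
  revert this
  generalize a i = x
  generalize b i = y
  revert x y
  decide

section alg

variable {K H H' : Type} [Field K] [Ring H] [Algebra K H] [Ring H'] [Algebra K H']

def toEmb (f : H →ₐ[K] H') (hf : Function.Injective f) :
    @Language.Embedding (LK K) H H' (str K (fun a b => a * b)) (str K (fun a b => a * b)) :=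
  @Language.Embedding.mk (LK K) H H' (str K (fun a b => a * b)) (str K (fun a b => a * b))
    ⟨f, hf⟩ (fun {n} g x => by
      cases g with
      | zero => exact map_zero f
      | neg => exact map_neg f _
      | smul c => exact map_smul f c _
      | add => exact map_add f _ _
      | mul => exact map_mul f _ _) (fun {n} r => r.elim)

def toEqv (f : H ≃ₐ[K] H') :
    @Language.Equiv (LK K) H H' (str K (fun a b => a * b)) (str K (fun a b => a * b)) :=
  @Language.Equiv.mk (LK K) H H' (str K (fun a b => a * b)) (str K (fun a b => a * b))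
    f.toEquiv (fun {n} g x => by
      cases g with
      | zero => exact map_zero f
      | neg => exact map_neg f _
      | smul c => exact map_smul f c _
      | add => exact map_add f _ _
      | mul => exact map_mul f _ _) (fun {n} r => r.elim)

end alg

abbrev JJ : Type := ℕ ⊕ ℝ
abbrev P2 : Type := ZMod 2
abbrev S0 : Type := M5 ℕ JJ
abbrev S1 : Type := M5 JJ JJ
abbrev H0 : Type := MonoidAlgebra P2 S0
abbrev H1 : Type := MonoidAlgebra P2 S1

open MonoidAlgebra hiding one mul_def

def io : S0 →* S1 := M5.map Sum.inl id

lemma io_inj : Function.Injective io := map_inj Sum.inl_injective Function.injective_id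

noncomputable def emb : H0 →ₐ[P2] H1 := mapDomainAlgHom P2 P2 io

lemma emb_apply (x : H0) : emb x = mapDomain io x := rfl

lemma emb_inj : Function.Injective emb := mapDomain_injective io_inj

lemma move (T : Finset S1) : ∃ σ : Equiv.Perm S1, (∀ x, kind (σ x) = kind x) ∧
    (∀ t ∈ T, σ t ∈ Set.range io) ∧ ∀ t ∈ T, t ∈ Set.range io → σ t = t := by
  classical
  obtain ⟨N, hN⟩ : ∃ N : ℕ, ∀ n, u (Sum.inl n) ∈ T → n < N := by
    have : Set.Finite {n : ℕ | (u (Sum.inl n) : S1) ∈ T} :=
      Set.Finite.preimage (f := fun n : ℕ => (u (Sum.inl n) : S1))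
        (fun a _ b _ h => by simpa using h) T.finite_toSet
    obtain ⟨N, hN⟩ := this.bddAbove
    exact ⟨N + 1, fun n hn => Nat.lt_succ_of_le (hN hn)⟩
  let a : Fin T.card → S1 := fun i => (T.equivFin.symm i : S1)
  have ha : Function.Injective a := Subtype.val_injective.comp T.equivFin.symm.injective
  have haT : ∀ i, a i ∈ T := fun i => (T.equivFin.symm i).2
  let b : Fin T.card → S1 := fun i => if a i ∈ Set.range io then a i else u (Sum.inl (N + i))
  have hk : ∀ t : S1, t ∉ Set.range io → kind t = 3 := by
    intro t ht
    cases t with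
    | one => exact absurd ⟨one, rfl⟩ ht
    | e => exact absurd ⟨e, rfl⟩ ht
    | z => exact absurd ⟨z, rfl⟩ ht
    | u i => rfl
    | v j => exact absurd ⟨v j, rfl⟩ ht
  have hb : Function.Injective b := by
    intro i j h
    simp only [b] at h
    split_ifs at h with h1 h2 h2
    · exact ha h
    · have := hN (N + j) (h ▸ haT i)
      omega
    · have := hN (N + i) (h ▸ haT j)
      omega
    · simp only [u.injEq, Sum.inl.injEq] at h
      exact Fin.ext (by omega)
  obtain ⟨σ, hσ, hab⟩ := exists_perm kind _ a b (fun i => by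
    simp only [b]
    split_ifs with h
    · rfl
    · exact hk _ h) (fun i j => by rw [ha.eq_iff, hb.eq_iff])
  have hT : ∀ t ∈ T, ∃ i, a i = t := fun t ht => ⟨T.equivFin ⟨t, ht⟩, by simp [a]⟩
  refine ⟨σ, hσ, fun t ht => ?_, fun t ht h => ?_⟩
  · obtain ⟨i, rfl⟩ := hT t ht
    rw [hab]
    simp only [b]
    split_ifs with h
    · exact h
    · exact ⟨u (N + i), rfl⟩
  · obtain ⟨i, rfl⟩ := hT t ht
    rw [hab]
    simp only [b]
    rw [if_pos h]

lemma elementary {n : ℕ} (φ : (LK P2).Formula (Fin n)) (x : Fin n → H0) :
    @Formula.Realize (LK P2) H1 (str P2 (fun a b => a * b)) _ φ (emb ∘ x) ↔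
      @Formula.Realize (LK P2) H0 (str P2 (fun a b => a * b)) _ φ x := by
  classical
  let _i : (LK P2).Structure H0 := str P2 (fun a b => a * b)
  let _j : (LK P2).Structure H1 := str P2 (fun a b => a * b)
  refine Language.Embedding.isElementary_of_exists (toEmb emb emb_inj) ?_ φ x
  intro n φ x a h
  obtain ⟨σ, hσ, h1, h2⟩ := move
    ((Finset.univ.biUnion fun i => (emb (x i)).coeff.support) ∪ a.coeff.support)
  let τ : H1 ≃ₐ[P2] H1 := domCongr P2 P2 (permEquiv σ hσ)
  have hτ : ∀ w : H1, τ w = mapDomain σ w := fun w => by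
    have := domCongr_toAlgHom (R := P2) (A := P2) (permEquiv σ hσ)
    exact DFunLike.congr_fun this w
  have hsupp : ↑(τ a).coeff.support ⊆ Set.range io := by
    intro t ht
    rw [hτ, coeff_mapDomain] at ht
    obtain ⟨s, hs, rfl⟩ := Finset.mem_image.1 (Finsupp.mapDomain_support ht)
    exact h1 s (Finset.mem_union_right _ hs)
  refine ⟨comapDomain io io_inj (τ a), ?_⟩
  have e1 : emb (comapDomain io io_inj (τ a)) = τ a := mapDomain_comapDomain hsupp io_inj
  have e2 : ∀ i, τ (emb (x i)) = emb (x i) := by
    intro i
    rw [hτ]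
    apply coeff_injective
    rw [coeff_mapDomain]
    conv_rhs => rw [← Finsupp.mapDomain_id (v := (emb (x i)).coeff)]
    apply Finsupp.mapDomain_congr
    intro t ht
    refine h2 t (Finset.mem_union_left _ (Finset.mem_biUnion.2 ⟨i, Finset.mem_univ _, ht⟩)) ?_
    rw [emb_apply, coeff_mapDomain] at ht
    obtain ⟨s, -, rfl⟩ := Finset.mem_image.1 (Finsupp.mapDomain_support ht)
    exact ⟨s, rfl⟩
  have e3 := (StrongHomClass.realize_boundedFormula (toEqv τ) φ (v := _)
    (xs := Fin.snoc (emb ∘ x) a)).2 h
  have e4 : (toEqv τ) ∘ (Fin.snoc (emb ∘ x) a : Fin (n + 1) → H1) =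
      Fin.snoc (emb ∘ x) (emb (comapDomain io io_inj (τ a))) := by
    funext i
    refine Fin.lastCases ?_ (fun i => ?_) i
    · simp only [Function.comp_apply, Fin.snoc_last, e1]; rfl
    · simp only [Function.comp_apply, Fin.snoc_castSucc]; exact e2 i
  rw [e4] at e3
  have e5 : ∀ w w' : Empty → H1, ∀ y : Fin (n + 1) → H1, φ.Realize w y → φ.Realize w' y :=
    fun w w' y hh => Subsingleton.elim w w' ▸ hh
  exact e5 _ _ _ e3

noncomputable def eps (I J : Type) : MonoidAlgebra P2 (M5 I J) :=
  single one 1 - single e 1 + single z 1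

noncomputable def swapHom : S1 →* H1 where
  toFun x := match x with
    | one => single one 1
    | e => eps JJ JJ
    | z => single z 1
    | u i => single (v i) 1
    | v j => single (u j) 1
  map_one' := rfl
  map_mul' a b := by
    cases a <;> cases b <;>
      simp [mul_def, mul, eps, single_mul_single, add_mul, mul_add, sub_mul, mul_sub]

noncomputable def swapAlg : H1 →ₐ[P2] H1 := lift P2 H1 S1 swapHom

lemma swap_swap : swapAlg.comp swapAlg = AlgHom.id P2 H1 := by
  refine algHom_ext (fun x => ?_) (Subsingleton.elim _ _)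
  cases x <;> simp [swapAlg, swapHom, eps]
  abel

noncomputable def swapEqv : H1 ≃ₐ[P2] H1 := AlgEquiv.ofAlgHom swapAlg swapAlg swap_swap swap_swap

instance : Countable (M5 ℕ Empty) := by
  have : Function.Surjective (fun x : Fin 3 ⊕ ℕ => (match x with
      | Sum.inl 0 => one | Sum.inl 1 => e | Sum.inl 2 => z | Sum.inr n => u n : M5 ℕ Empty)) := by
    intro t
    cases t with
    | one => exact ⟨Sum.inl 0, rfl⟩
    | e => exact ⟨Sum.inl 1, rfl⟩
    | z => exact ⟨Sum.inl 2, rfl⟩
    | u n => exact ⟨Sum.inr n, rfl⟩
    | v j => exact j.elim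
  exact this.countable

theorem result : ∃ (S : Type) (_ : Semigroup S) (P : Type) (_ : Field P),
    @Homog LS S (sgStr S) ∧
    @Homog Language.ring P (FirstOrder.Ring.compatibleRingOfRing P).toStructure ∧
    ¬ Homogeneous P (MonoidAlgebra P S) (fun a b => a * b) := by
  refine ⟨S0, inferInstance, P2, inferInstance, homog_M5 _ _, homog_F2, fun h => ?_⟩
  obtain ⟨σ, hσ, hab⟩ := h 1 (fun _ => single e 1) (fun _ => eps ℕ JJ) (fun φ => by
    let _j : (LK P2).Structure H1 := str P2 (fun a b => a * b)
    rw [← elementary φ, ← elementary φ]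
    have := StrongHomClass.realize_formula (toEqv swapEqv) φ
      (v := emb ∘ (fun _ : Fin 1 => (single e 1 : H0)))
    rw [← this]
    have e1 : (toEqv swapEqv) ∘ emb ∘ (fun _ : Fin 1 => (single e 1 : H0)) =
        emb ∘ fun _ => eps ℕ JJ := by
      funext i
      change swapAlg (emb (single e 1)) = emb (eps ℕ JJ)
      simp only [eps, map_add, map_sub, emb_apply, mapDomain_single]
      simp [swapAlg, swapHom, io, M5.map, eps]
    rw [e1])
  have hab' : σ (single e 1) = eps ℕ JJ := hab 0
  let g : MonoidAlgebra P2 (M5 ℕ Empty) →ₐ[P2] H0 := mapDomainAlgHom P2 P2 (M5.map id Empty.elim)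
  have hr : ∀ x : H0, single e 1 * x ∈ g.range := by
    intro x
    induction x using MonoidAlgebra.induction_linear with
    | zero => simp
    | add x y hx hy => rw [mul_add]; exact add_mem hx hy
    | single s c =>
      rw [single_mul_single, one_mul]
      cases s with
      | one => exact ⟨single e c, mapDomain_single⟩
      | e => exact ⟨single e c, mapDomain_single⟩
      | z => exact ⟨single z c, mapDomain_single⟩
      | u n => exact ⟨single (u n) c, mapDomain_single⟩
      | v j => exact ⟨single z c, mapDomain_single⟩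
  have hx : ∀ r : ℝ, σ.symm (single (v (Sum.inr r)) 1) ∈ g.range := by
    intro r
    have : σ.symm (single (v (Sum.inr r)) 1) = single e 1 * σ.symm (single (v (Sum.inr r)) 1) := by
      apply σ.injective
      rw [hσ, hab']
      simp [eps, single_mul_single, add_mul, sub_mul, mul_def, mul]
    rw [this]
    exact hr _
  choose w hw using hx
  have hinj : Function.Injective w := by
    intro r s hrs
    have := hw r
    rw [hrs, hw s] at this
    have h2 := σ.symm.injective this
    have h3 := single_left_injective (one_ne_zero (α := P2)) h2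
    simpa using h3.symm
  have : Countable (MonoidAlgebra P2 (M5 ℕ Empty)) := coeff_injective.countable
  have := hinj.countable
  exact not_countable (α := ℝ) this

end Pool.Agent.Results.MP_c05c30_lc.NotHomogeneous
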